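import Pool.Agent.K3h30.RS.Stm3
import Pool.Agent.K3h25.RS.Trans

/-!
# The groups `U_{S,{v}}` are torsion free; Frobenius automorphisms are unique
-/

set_option autoImplicit false

open NumberField IsDedekindDomain

noncomputable section

namespace Pool.Agent.K3h23.RS

open Pool.Agent.K3h30.RS

theorem t_TORS (hNZ : S_NOZETA) : S_TORS := by
  intro F H G _ _ _ _ _ _ _ _ _ D v hvS hv x hx hfin
  by_contra hx1
  have hn0 : 0 < orderOf x := hfin.orderOf_pos
  have hn1 : orderOf x ≠ 1 := fun h => hx1 (orderOf_eq_one_iff.mp h)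
  obtain ⟨p, hp, hpn⟩ := Nat.exists_prime_and_dvd hn1
  obtain ⟨m, hm⟩ := hpn
  have hm0 : 0 < m := by
    rcases Nat.eq_zero_or_pos m with h | h
    · rw [h, mul_zero] at hm
      omega
    · exact h
  -- an element of order `p`
  set y : Hˣ := x ^ m with hy
  have hyU : y ∈ D.U {v} := Subgroup.pow_mem _ hx m
  have hyp : y ^ p = 1 := by
    rw [hy, ← pow_mul, mul_comm m p, ← hm, pow_orderOf_eq_one]
  have hy1 : y ≠ 1 := by
    intro h
    have h1 := orderOf_dvd_of_pow_eq_one (hy ▸ h : x ^ m = 1)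
    have h2 := Nat.le_of_dvd hm0 h1
    have h3 : 2 * m ≤ p * m := Nat.mul_le_mul_right m hp.two_le
    omega
  obtain ⟨w, hw⟩ := (Pool.Agent.K3h25.RS.t_OVER F H v).1
  have hwT : Above ((({v} : Finset (HeightOneSpectrum (𝓞 F))) : Set (HeightOneSpectrum (𝓞 F)))) w := by
    rw [Finset.coe_singleton]
    exact hw
  have hval : w.valuation H ((y : H) - 1) < 1 := hyU.2 w hwT
  have hyv : w.valuation H (y : H) = 1 := by
    have h := Valuation.map_one_add_of_lt (w.valuation H) hval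
    rwa [add_sub_cancel] at h
  have hyH1 : (y : H) ≠ 1 := fun h => hy1 (Units.ext h)
  have hypH : (y : H) ^ p = 1 := by
    rw [← Units.val_pow_eq_pow_val, hyp, Units.val_one]
  -- `1 + y + ... + y ^ (p - 1) = 0`
  have hgeom : ∑ i ∈ Finset.range p, (y : H) ^ i = 0 := by
    have h1 := geom_sum_mul (y : H) p
    rw [hypH, sub_self] at h1
    rcases mul_eq_zero.mp h1 with h | h
    · exact h
    · exact absurd (sub_eq_zero.mp h) hyH1
  have hpow : ∀ i : ℕ, w.valuation H ((y : H) ^ i - 1) < 1 := by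
    intro i
    rw [← mul_geom_sum, map_mul]
    have h2 : w.valuation H (∑ k ∈ Finset.range i, (y : H) ^ k) ≤ 1 := by
      refine Valuation.map_sum_le _ fun k _ => ?_
      rw [map_pow, hyv, one_pow]
    calc w.valuation H ((y : H) - 1) * w.valuation H (∑ k ∈ Finset.range i, (y : H) ^ k)
        ≤ w.valuation H ((y : H) - 1) * 1 := mul_le_mul_right h2 _
      _ < 1 := by rwa [mul_one]
  have hpval : w.valuation H ((p : ℕ) : H) < 1 := by
    have h1 : ((p : ℕ) : H) = -∑ i ∈ Finset.range p, ((y : H) ^ i - 1) := by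
      rw [Finset.sum_sub_distrib, hgeom, Finset.sum_const, Finset.card_range, nsmul_one]
      ring
    rw [h1, Valuation.map_neg]
    exact Valuation.map_sum_lt _ one_ne_zero fun i _ => hpow i
  have hpw : ((p : ℕ) : 𝓞 H) ∈ w.asIdeal := by
    rw [← HeightOneSpectrum.valuation_lt_one_iff_mem (K := H)]
    have h1 : ((((p : ℕ) : 𝓞 H)) : H) = ((p : ℕ) : H) := map_natCast (algebraMap (𝓞 H) H) p
    have h2 : w.valuation H ((((p : ℕ) : 𝓞 H)) : H) < 1 := by
      rw [h1]
      exact hpval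
    exact h2
  have hpv : ((p : ℕ) : 𝓞 F) ∈ v.asIdeal := by
    obtain ⟨v', hv', hvw⟩ := hw
    rw [Set.mem_singleton_iff] at hv'
    subst hv'
    rw [← hvw, Ideal.mem_comap, map_natCast]
    exact hpw
  have hchar : ringChar (𝓞 F ⧸ v.asIdeal) = p := by
    have := v.isMaximal
    have : Nontrivial (𝓞 F ⧸ v.asIdeal) := Ideal.Quotient.nontrivial_iff.mpr v.isPrime.ne_top
    have h0 : ((p : ℕ) : 𝓞 F ⧸ v.asIdeal) = 0 := by
      have h1 : (Ideal.Quotient.mk v.asIdeal) ((p : ℕ) : 𝓞 F) = 0 :=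
        Ideal.Quotient.eq_zero_iff_mem.mpr hpv
      rwa [map_natCast] at h1
    have hdvd := ringChar.dvd h0
    rcases (Nat.dvd_prime hp).mp hdvd with h | h
    · exfalso
      have h2 : ((1 : ℕ) : 𝓞 F ⧸ v.asIdeal) = 0 := by
        rw [ringChar.spec, h]
      rw [Nat.cast_one] at h2
      exact one_ne_zero h2
    · exact h
  refine hNZ F H v (D.unramified v hvS) hv ⟨(y : H), ?_, hyH1⟩
  rw [hchar]
  exact hypH

theorem t_FROBUNIQ : S_FROBUNIQ := by
  intro F H G _ _ _ _ _ _ _ _ _ v hsq γ γ' hγ hγ'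
  obtain ⟨w, hw⟩ := (Pool.Agent.K3h25.RS.t_OVER F H v).1
  have hwp := w.isPrime
  have hvp := v.isPrime
  have hvm := v.isMaximal
  have hwv : w.asIdeal.comap (algebraMap (𝓞 F) (𝓞 H)) = v.asIdeal := by
    obtain ⟨v', hv', hvw⟩ := hw
    rw [Set.mem_singleton_iff] at hv'
    subst hv'
    exact hvw
  have hlo : w.asIdeal.LiesOver v.asIdeal := ⟨hwv.symm⟩
  -- in terms of the ideal
  have key : ∀ g : G, IsFrob (H := H) v g → ∀ x : 𝓞 H,
      g • x - x ^ (Ideal.absNorm v.asIdeal) ∈ w.asIdeal := by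
    intro g hg x
    rw [← HeightOneSpectrum.valuation_lt_one_iff_mem (K := H)]
    exact hg w hw x
  have hq0 : Ideal.absNorm v.asIdeal ≠ 0 := Ideal.absNorm_eq_zero_iff.not.mpr v.ne_bot
  have hstab : ∀ x : 𝓞 H, γ' • x ∈ w.asIdeal → x ∈ w.asIdeal := by
    intro x hx
    have h1 := w.asIdeal.sub_mem hx (key γ' hγ' x)
    rw [sub_sub_cancel] at h1
    exact hwp.mem_of_pow_mem _ h1
  have hin : γ'⁻¹ * γ ∈ w.asIdeal.inertia G := by
    intro x
    have h1 := w.asIdeal.sub_mem (key γ hγ x) (key γ' hγ' x)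
    have h2 : γ • x - x ^ Ideal.absNorm v.asIdeal - (γ' • x - x ^ Ideal.absNorm v.asIdeal) =
        γ' • ((γ'⁻¹ * γ) • x - x) := by
      rw [smul_sub, smul_smul, mul_inv_cancel_left]
      ring
    rw [h2] at h1
    exact hstab _ h1
  have : PerfectField v.asIdeal.ResidueField := by
    have hf : Finite (𝓞 F ⧸ v.asIdeal) := Ideal.finiteQuotientOfFreeOfNeBot _ v.ne_bot
    have hf2 : Finite v.asIdeal.ResidueField :=
      Finite.of_surjective _ (Ideal.bijective_algebraMap_quotient_residueField v.asIdeal).2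
    infer_instance
  have hgal : IsGaloisGroup G (𝓞 F) (𝓞 H) := inferInstance
  have hcard : Nat.card (w.asIdeal.inertia G) = 1 := by
    rw [Ideal.card_inertia_eq_ramificationIdxIn v.asIdeal w.asIdeal,
      Ideal.ramificationIdxIn_eq_ramificationIdx v.asIdeal w.asIdeal G,
      ← Ideal.ramificationIdx'_eq_ramificationIdx v.asIdeal w.asIdeal v.ne_bot]
    by_contra h
    have hle : v.asIdeal.map (algebraMap (𝓞 F) (𝓞 H)) ≤ w.asIdeal :=
      Ideal.map_le_iff_le_comap.mpr hwv.ge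
    rw [← ne_eq, Ideal.ramificationIdx'_ne_one_iff hle] at h
    have h1 : w.asIdeal * w.asIdeal ∣ v.asIdeal.map (algebraMap (𝓞 F) (𝓞 H)) := by
      rw [← pow_two]
      exact Ideal.dvd_iff_le.mpr h
    have h2 := hsq _ h1
    exact hwp.ne_top (Ideal.isUnit_iff.mp h2)
  have htriv : w.asIdeal.inertia G = ⊥ := Subgroup.card_eq_one.mp hcard
  rw [htriv, Subgroup.mem_bot] at hin
  exact (inv_mul_eq_one.mp hin).symm

end Pool.Agent.K3h23.RS
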